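import Pool.Agent.H42.Rich.Final

set_option autoImplicit false

namespace Pool.Agent.Results.MP_338d97_co.AtLeastThree

open Pool.Agent.H42.Rich

/-- Every set of at least three integers carries an infinite rich additive 4-power-free word, and
no set of at most one integer does. -/
theorem result :
    (∀ S : Set ℤ, 3 ≤ S.encard → HasProperty S) ∧
      (∀ S : Set ℤ, S.encard ≤ 1 → ¬ HasProperty S) :=
  ⟨fun _ h => hasProperty_of_three h, fun _ h => not_hasProperty_of_one h⟩

end Pool.Agent.Results.MP_338d97_co.AtLeastThree
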